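import Pool.Agent.MP_be5fd0_gt.Defs

/-! Deformation equivalence to a constant form. -/

namespace Pool.Agent.MP_be5fd0_gt.H13

/-- The form is joined to a constant form by a continuous path of symplectic forms on the torus;
the cohomology class may vary along the path. -/
def DefConst (σ : (Fin 4 → ℝ) → (Fin 4 → ℝ) [⋀^Fin 2]→L[ℝ] ℝ) : Prop :=
  ∃ (Ω : unitInterval → (Fin 4 → ℝ) → (Fin 4 → ℝ) [⋀^Fin 2]→L[ℝ] ℝ)
    (b : (Fin 4 → ℝ) [⋀^Fin 2]→L[ℝ] ℝ),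
    Continuous (fun p : unitInterval × (Fin 4 → ℝ) => Ω p.1 p.2) ∧ (∀ t, IsSymp (Ω t)) ∧
      Ω 0 = σ ∧ Ω 1 = fun _ => b

end Pool.Agent.MP_be5fd0_gt.H13
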